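import Pool.Agent.Helper96.MP.Defs

set_option autoImplicit false

namespace Pool.Agent.Helper96.MP

/-- ceiling of a quotient -/
def chain_cd (u v : ℕ) : ℕ := (u + v - 1) / v

theorem chain_cd_spec (u v : ℕ) (hv : 1 ≤ v) :
    u ≤ chain_cd u v * v ∧ chain_cd u v * v < u + v := by
  unfold chain_cd
  have h1 := Nat.div_add_mod (u + v - 1) v
  have h2 := Nat.mod_lt (u + v - 1) (by omega : v > 0)
  rw [mul_comm] at h1
  constructor <;> omega

theorem chain_cd_eq (u v k : ℕ) (hv : 1 ≤ v) (h1 : u ≤ k * v) (h2 : k * v < u + v) :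
    chain_cd u v = k := by
  have h := chain_cd_spec u v hv
  generalize chain_cd u v = m at h
  obtain ⟨h3, h4⟩ := h
  have h5 : m * v < (k + 1) * v := by nlinarith
  have h6 : k * v < (m + 1) * v := by nlinarith
  have h7 := Nat.lt_of_mul_lt_mul_right h5
  have h8 := Nat.lt_of_mul_lt_mul_right h6
  omega

theorem chain_mem (n : ℕ) (a b c d : ℕ) : (a, b, c, d) ∈ Sn n ↔
    b < a ∧ c < d ∧ a * d = n + b * c := by
  unfold Sn
  simp only [Finset.mem_filter, Finset.mem_product, Finset.mem_range]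
  constructor
  · rintro ⟨_, h⟩; exact h
  · rintro ⟨h1, h2, h3⟩
    refine ⟨?_, h1, h2, h3⟩
    have h4 : a + d ≤ n + 1 := by
      obtain ⟨e, rfl⟩ : ∃ e, a = b + 1 + e := ⟨a - b - 1, by omega⟩
      obtain ⟨g, rfl⟩ : ∃ g, d = c + 1 + g := ⟨d - c - 1, by omega⟩
      nlinarith [Nat.zero_le (e * g), Nat.zero_le (e * c), Nat.zero_le (b * g)]
    refine ⟨?_, ?_, ?_, ?_⟩ <;> omega

theorem chain_uni (hH : ST_HERM) (n : ℕ) (hn : 1 ≤ n) (x y z w : ℤ)
    (hdet : x * w - y * z = (n : ℤ)) :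
    ∃ t : ℕ × ℕ × ℕ, (t.1 * t.2.2 = n ∧ t.2.1 < t.2.2 ∧ (n : ℤ) ∣ x * t.2.2 ∧
      (n : ℤ) ∣ x * t.2.1 + y * t.1 ∧ (n : ℤ) ∣ z * t.2.2 ∧ (n : ℤ) ∣ z * t.2.1 + w * t.1) ∧
      ∀ s : ℕ × ℕ × ℕ, (s.1 * s.2.2 = n ∧ s.2.1 < s.2.2 ∧ (n : ℤ) ∣ x * s.2.2 ∧
      (n : ℤ) ∣ x * s.2.1 + y * s.1 ∧ (n : ℤ) ∣ z * s.2.2 ∧ (n : ℤ) ∣ z * s.2.1 + w * s.1) →
      s = t := by
  obtain ⟨t, ⟨ht, p', q', r', s', h1, h2, h3, h4, h5⟩, hu⟩ :=
    hH n hn x (-y) (-z) w (by linarith)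
  unfold Tn at ht
  simp only [Finset.mem_filter] at ht
  have hnz : (t.1 : ℤ) * t.2.2 = n := by exact_mod_cast ht.2.1
  refine ⟨t, ⟨ht.2.1, ht.2.2, ⟨p', ?_⟩, ⟨-q', ?_⟩, ⟨-r', ?_⟩, ⟨s', ?_⟩⟩, ?_⟩
  · rw [h2, ← hnz]; ring
  · rw [h2, show y = -(p' * t.2.1 + q' * t.2.2) by linarith, ← hnz]; ring
  · rw [show z = -(r' * t.1) by linarith, ← hnz]; ring
  · rw [show z = -(r' * t.1) by linarith, h5, ← hnz]; ring
  · rintro s ⟨g1, g2, ⟨p1, g3⟩, ⟨q1, g4⟩, ⟨r1, g5⟩, ⟨s1, g6⟩⟩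
    apply hu
    have gz : (s.1 : ℤ) * s.2.2 = n := by exact_mod_cast g1
    have ha : (s.2.2 : ℤ) ≠ 0 := by
      have : s.2.2 ≠ 0 := by omega
      exact_mod_cast this
    have hd : (s.1 : ℤ) ≠ 0 := by
      intro h
      have h0 : s.1 = 0 := by exact_mod_cast h
      rw [h0, zero_mul] at g1
      omega
    have e1 : x = p1 * s.1 := by
      apply mul_right_cancel₀ ha
      rw [g3, ← gz]; ring
    have e2 : z = r1 * s.1 := by
      apply mul_right_cancel₀ ha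
      rw [g5, ← gz]; ring
    have e3 : y = q1 * s.2.2 - p1 * s.2.1 := by
      apply mul_right_cancel₀ hd
      have : x * s.2.1 + y * s.1 = (s.1 : ℤ) * s.2.2 * q1 := by rw [g4, gz]
      rw [e1] at this
      linear_combination this
    have e4 : w = s1 * s.2.2 - r1 * s.2.1 := by
      apply mul_right_cancel₀ hd
      have : z * s.2.1 + w * s.1 = (s.1 : ℤ) * s.2.2 * s1 := by rw [g6, gz]
      rw [e2] at this
      linear_combination this
    refine ⟨?_, p1, -q1, -r1, s1, ?_, e1, ?_, ?_, ?_⟩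
    · unfold Tn
      simp only [Finset.mem_filter, Finset.mem_product, Finset.mem_range]
      have hs1 : 0 < s.1 := by
        rcases Nat.eq_zero_or_pos s.1 with h | h
        · rw [h, zero_mul] at g1; omega
        · exact h
      have hs2 : s.1 ≤ n := by nlinarith
      have hs3 : s.2.2 ≤ n := by nlinarith
      refine ⟨⟨by omega, by omega, by omega⟩, g1, g2⟩
    · have h9 : (n : ℤ) * (p1 * s1 - q1 * r1) = n := by
        have : x * w - y * z = (n : ℤ) * (p1 * s1 - q1 * r1) := by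
          rw [e1, e2, e3, e4, ← gz]; ring
        rw [← this, hdet]
      have hnn : (n : ℤ) ≠ 0 := by
        have : n ≠ 0 := by omega
        exact_mod_cast this
      have h10 := mul_left_cancel₀ hnn (h9.trans (mul_one _).symm)
      linarith
    · rw [e3]; ring
    · rw [e2]; ring
    · rw [e4]; ring

/-- the divisibility condition -/
def chain_D (n : ℕ) (x y z w : ℤ) (m : ℕ × ℕ × ℕ × ℕ) : Prop :=
  (n : ℤ) ∣ x * m.1 + y * m.2.2.1 ∧ (n : ℤ) ∣ x * m.2.1 + y * m.2.2.2 ∧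
      (n : ℤ) ∣ z * m.1 + w * m.2.2.1 ∧ (n : ℤ) ∣ z * m.2.1 + w * m.2.2.2

/-- forward map -/
def chain_i (m : ℕ × ℕ × ℕ × ℕ) : ℕ × ℕ × ℕ × ℕ :=
  (chain_cd m.2.2.2 m.2.2.1 * m.1 - m.2.1, m.1,
    chain_cd m.2.2.2 m.2.2.1 * m.2.2.1 - m.2.2.2, m.2.2.1)

/-- backward map -/
def chain_j (m : ℕ × ℕ × ℕ × ℕ) : ℕ × ℕ × ℕ × ℕ :=
  (m.2.1, chain_cd m.1 m.2.1 * m.2.1 - m.1, m.2.2.2,
    chain_cd m.1 m.2.1 * m.2.2.2 - m.2.2.1)

theorem chain_k2 (u v k : ℕ) (hv : 1 ≤ v) (h : v < u) (h1 : u ≤ k * v) : 2 ≤ k := by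
  by_contra h2
  have h3 : k ≤ 1 := by omega
  have h4 : k * v ≤ 1 * v := Nat.mul_le_mul_right v h3
  omega

theorem chain_fwd (n : ℕ) (x y z w : ℤ) (m : ℕ × ℕ × ℕ × ℕ) (hm : m ∈ Sn n)
    (hc : m.2.2.1 ≠ 0) (hD : chain_D n x y z w m) :
    chain_i m ∈ Sn n ∧ (chain_i m).2.1 ≠ 0 ∧ chain_D n x y z w (chain_i m) ∧
      chain_j (chain_i m) = m := by
  obtain ⟨a, b, c, d⟩ := m
  rw [chain_mem] at hm
  obtain ⟨h1, h2, h3⟩ := hm
  simp only at hc
  have hc1 : 1 ≤ c := by omega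
  obtain ⟨k1, k2⟩ := chain_cd_spec d c hc1
  have hk := chain_k2 d c _ hc1 h2 k1
  set k := chain_cd d c with hkd
  have hka : b < (k - 1) * a + 0 := by
    have : 1 * a ≤ (k - 1) * a := Nat.mul_le_mul_right a (by omega)
    omega
  have hka' : (k - 1) * a + a = k * a := by
    obtain ⟨k0, hk0⟩ : ∃ k0, k = k0 + 1 := ⟨k - 1, by omega⟩
    rw [hk0]; simp; ring
  have hba : b ≤ k * a := by omega
  have hi : chain_i (a, b, c, d) = (k * a - b, a, k * c - d, c) := rfl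
  rw [hi]
  obtain ⟨d1, d2, d3, d4⟩ := hD
  simp only at d1 d2 d3 d4
  refine ⟨?_, ?_, ⟨?_, ?_, ?_, ?_⟩, ?_⟩
  · rw [chain_mem]
    refine ⟨by omega, by omega, ?_⟩
    zify [hba, k1] at h3 ⊢
    linear_combination h3
  · simp only; omega
  · simp only
    rw [Nat.cast_sub hba, Nat.cast_sub k1]
    push_cast
    have : x * ((k : ℤ) * a - b) + y * ((k : ℤ) * c - d) =
        k * (x * a + y * c) - (x * b + y * d) := by ring
    rw [this]
    exact dvd_sub (Dvd.dvd.mul_left d1 _) d2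
  · simpa using d1
  · simp only
    rw [Nat.cast_sub hba, Nat.cast_sub k1]
    push_cast
    have : z * ((k : ℤ) * a - b) + w * ((k : ℤ) * c - d) =
        k * (z * a + w * c) - (z * b + w * d) := by ring
    rw [this]
    exact dvd_sub (Dvd.dvd.mul_left d3 _) d4
  · simpa using d3
  · have hk' : chain_cd (k * a - b) a = k := by
      apply chain_cd_eq _ _ _ (by omega)
      · omega
      · omega
    have hj : chain_j (k * a - b, a, k * c - d, c) =
        (a, chain_cd (k * a - b) a * a - (k * a - b), c,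
          chain_cd (k * a - b) a * c - (k * c - d)) := rfl
    rw [hj, hk']
    have e1 : k * a - (k * a - b) = b := by omega
    have e2 : k * c - (k * c - d) = d := by omega
    rw [e1, e2]

theorem chain_bwd (n : ℕ) (x y z w : ℤ) (m : ℕ × ℕ × ℕ × ℕ) (hm : m ∈ Sn n)
    (hb : m.2.1 ≠ 0) (hD : chain_D n x y z w m) :
    chain_j m ∈ Sn n ∧ (chain_j m).2.2.1 ≠ 0 ∧ chain_D n x y z w (chain_j m) ∧
      chain_i (chain_j m) = m := by
  obtain ⟨a, b, c, d⟩ := m
  rw [chain_mem] at hm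
  obtain ⟨h1, h2, h3⟩ := hm
  simp only at hb
  have hb1 : 1 ≤ b := by omega
  obtain ⟨k1, k2⟩ := chain_cd_spec a b hb1
  have hk := chain_k2 a b _ hb1 h1 k1
  set k := chain_cd a b with hkd
  have hkd1 : c < (k - 1) * d := by
    have : 1 * d ≤ (k - 1) * d := Nat.mul_le_mul_right d (by omega)
    omega
  have hkd' : (k - 1) * d + d = k * d := by
    obtain ⟨k0, hk0⟩ : ∃ k0, k = k0 + 1 := ⟨k - 1, by omega⟩
    rw [hk0]; simp; ring
  have hcd : c ≤ k * d := by omega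
  have hi : chain_j (a, b, c, d) = (b, k * b - a, d, k * d - c) := rfl
  rw [hi]
  obtain ⟨d1, d2, d3, d4⟩ := hD
  simp only at d1 d2 d3 d4
  refine ⟨?_, ?_, ⟨?_, ?_, ?_, ?_⟩, ?_⟩
  · rw [chain_mem]
    refine ⟨by omega, by omega, ?_⟩
    zify [hcd, k1] at h3 ⊢
    linear_combination h3
  · simp only; omega
  · simpa using d2
  · simp only
    rw [Nat.cast_sub hcd, Nat.cast_sub k1]
    push_cast
    have : x * ((k : ℤ) * b - a) + y * ((k : ℤ) * d - c) =
        k * (x * b + y * d) - (x * a + y * c) := by ring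
    rw [this]
    exact dvd_sub (Dvd.dvd.mul_left d2 _) d1
  · simpa using d4
  · simp only
    rw [Nat.cast_sub hcd, Nat.cast_sub k1]
    push_cast
    have : z * ((k : ℤ) * b - a) + w * ((k : ℤ) * d - c) =
        k * (z * b + w * d) - (z * a + w * c) := by ring
    rw [this]
    exact dvd_sub (Dvd.dvd.mul_left d4 _) d3
  · have hk' : chain_cd (k * d - c) d = k := by
      apply chain_cd_eq _ _ _ (by omega)
      · omega
      · omega
    have hj : chain_i (b, k * b - a, d, k * d - c) =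
        (chain_cd (k * d - c) d * b - (k * b - a), b,
          chain_cd (k * d - c) d * d - (k * d - c), d) := rfl
    rw [hj, hk']
    have e1 : k * b - (k * b - a) = a := by omega
    have e2 : k * d - (k * d - c) = c := by omega
    rw [e1, e2]

theorem chain_card_c (hH : ST_HERM) (n : ℕ) (hn : 1 ≤ n) (x y z w : ℤ)
    (hdet : x * w - y * z = (n : ℤ)) (S : Finset (ℕ × ℕ × ℕ × ℕ))
    (hS : ∀ m, m ∈ S ↔ (m ∈ Sn n ∧ chain_D n x y z w m) ∧ m.2.2.1 = 0) : S.card = 1 := by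
  obtain ⟨t, ⟨h1, h2, h3, h4, h5, h6⟩, hu⟩ := chain_uni hH n hn x y z w hdet
  rw [Finset.card_eq_one]
  refine ⟨(t.2.2, t.2.1, 0, t.1), ?_⟩
  ext m
  rw [hS, Finset.mem_singleton]
  obtain ⟨a, b, c, d⟩ := m
  rw [chain_mem]
  unfold chain_D
  simp only
  constructor
  · rintro ⟨⟨⟨g1, g2, g3⟩, g4, g5, g6, g7⟩, rfl⟩
    have := hu (d, b, a) ⟨by simp only; linarith, g1, by simpa using g4, g5,
      by simpa using g6, g7⟩
    rw [← this]
  · intro h
    simp only [Prod.mk.injEq] at h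
    obtain ⟨rfl, rfl, rfl, rfl⟩ := h
    have ht1 : 0 < t.1 := by
      rcases Nat.eq_zero_or_pos t.1 with h | h
      · rw [h, zero_mul] at h1; omega
      · exact h
    refine ⟨⟨⟨h2, ht1, by rw [← h1]; ring⟩, by simpa using h3, h4, by simpa using h5, h6⟩, rfl⟩

theorem chain_card_b (hH : ST_HERM) (n : ℕ) (hn : 1 ≤ n) (x y z w : ℤ)
    (hdet : x * w - y * z = (n : ℤ)) (S : Finset (ℕ × ℕ × ℕ × ℕ))
    (hS : ∀ m, m ∈ S ↔ (m ∈ Sn n ∧ chain_D n x y z w m) ∧ m.2.1 = 0) : S.card = 1 := by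
  obtain ⟨t, ⟨h1, h2, h3, h4, h5, h6⟩, hu⟩ := chain_uni hH n hn w z y x (by linarith)
  rw [Finset.card_eq_one]
  refine ⟨(t.1, 0, t.2.1, t.2.2), ?_⟩
  ext m
  rw [hS, Finset.mem_singleton]
  obtain ⟨a, b, c, d⟩ := m
  rw [chain_mem]
  unfold chain_D
  simp only
  constructor
  · rintro ⟨⟨⟨g1, g2, g3⟩, g4, g5, g6, g7⟩, rfl⟩
    have := hu (a, c, d) ⟨by simp only; linarith, g2, by simpa using g7,
      by simpa [add_comm] using g6, by simpa using g5, by simpa [add_comm] using g4⟩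
    rw [← this]
  · intro h
    simp only [Prod.mk.injEq] at h
    obtain ⟨rfl, rfl, rfl, rfl⟩ := h
    have ht1 : 0 < t.1 := by
      rcases Nat.eq_zero_or_pos t.1 with h | h
      · rw [h, zero_mul] at h1; omega
      · exact h
    refine ⟨⟨⟨ht1, h2, by rw [← h1]; ring⟩, by simpa [add_comm] using h6, by simpa using h5,
      by simpa [add_comm] using h4, by simpa using h3⟩, rfl⟩

theorem st_CHAIN (hH : ST_HERM) : ST_CHAIN := by
  classical
  intro V _ n hn f hf x y z w hdet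
  set S := (Sn n).filter (fun m => (n : ℤ) ∣ x * m.1 + y * m.2.2.1 ∧
      (n : ℤ) ∣ x * m.2.1 + y * m.2.2.2 ∧
      (n : ℤ) ∣ z * m.1 + w * m.2.2.1 ∧ (n : ℤ) ∣ z * m.2.1 + w * m.2.2.2) with hSd
  have hS : ∀ m, m ∈ S ↔ m ∈ Sn n ∧ chain_D n x y z w m := by
    intro m
    rw [hSd, Finset.mem_filter]
    rfl
  rw [Finset.sum_sub_distrib]
  rw [← Finset.sum_filter_add_sum_filter_not S (fun m => m.2.2.1 = 0)
    (fun m => f m.1 m.2.2.1),
    ← Finset.sum_filter_add_sum_filter_not S (fun m => m.2.1 = 0) (fun m => f m.2.1 m.2.2.2)]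
  have h1 : ∑ m ∈ S.filter (fun m => ¬ m.2.2.1 = 0), f m.1 m.2.2.1 =
      ∑ m ∈ S.filter (fun m => ¬ m.2.1 = 0), f m.2.1 m.2.2.2 := by
    refine Finset.sum_bij' (fun m _ => chain_i m) (fun m _ => chain_j m) ?_ ?_ ?_ ?_ ?_
    · intro m hm
      rw [Finset.mem_filter, hS] at hm
      obtain ⟨g1, g2, g3, g4⟩ := chain_fwd n x y z w m hm.1.1 hm.2 hm.1.2
      rw [Finset.mem_filter, hS]
      exact ⟨⟨g1, g3⟩, g2⟩
    · intro m hm
      rw [Finset.mem_filter, hS] at hm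
      obtain ⟨g1, g2, g3, g4⟩ := chain_bwd n x y z w m hm.1.1 hm.2 hm.1.2
      rw [Finset.mem_filter, hS]
      exact ⟨⟨g1, g3⟩, g2⟩
    · intro m hm
      rw [Finset.mem_filter, hS] at hm
      exact (chain_fwd n x y z w m hm.1.1 hm.2 hm.1.2).2.2.2
    · intro m hm
      rw [Finset.mem_filter, hS] at hm
      exact (chain_bwd n x y z w m hm.1.1 hm.2 hm.1.2).2.2.2
    · intro m _
      rfl
  have h2 : ∑ m ∈ S.filter (fun m => m.2.2.1 = 0), f m.1 m.2.2.1 = f 1 0 := by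
    have hc := chain_card_c hH n hn x y z w hdet (S.filter (fun m => m.2.2.1 = 0)) (by
      intro m
      rw [Finset.mem_filter, hS])
    have : ∀ m ∈ S.filter (fun m => m.2.2.1 = 0), f m.1 m.2.2.1 = f 1 0 := by
      intro m hm
      rw [Finset.mem_filter, hS] at hm
      obtain ⟨a, b, c, d⟩ := m
      obtain ⟨⟨g1, _⟩, g2⟩ := hm
      rw [chain_mem] at g1
      simp only at g2 ⊢
      have := hf a 1 0 (by have : a ≠ 0 := by omega
                           exact_mod_cast this)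
      simp only [mul_one, mul_zero] at this
      rw [g2]
      exact_mod_cast this
    rw [Finset.sum_congr rfl this, Finset.sum_const, hc, one_smul]
  have h3 : ∑ m ∈ S.filter (fun m => m.2.1 = 0), f m.2.1 m.2.2.2 = f 0 1 := by
    have hc := chain_card_b hH n hn x y z w hdet (S.filter (fun m => m.2.1 = 0)) (by
      intro m
      rw [Finset.mem_filter, hS])
    have : ∀ m ∈ S.filter (fun m => m.2.1 = 0), f m.2.1 m.2.2.2 = f 0 1 := by
      intro m hm
      rw [Finset.mem_filter, hS] at hm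
      obtain ⟨a, b, c, d⟩ := m
      obtain ⟨⟨g1, _⟩, g2⟩ := hm
      rw [chain_mem] at g1
      simp only at g2 ⊢
      have := hf d 0 1 (by have : d ≠ 0 := by omega
                           exact_mod_cast this)
      simp only [mul_one, mul_zero] at this
      rw [g2]
      exact_mod_cast this
    rw [Finset.sum_congr rfl this, Finset.sum_const, hc, one_smul]
  rw [h1, h2, h3]
  abel

end Pool.Agent.Helper96.MP
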