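import Pool.Agent.Helper96.MP.Defs

set_option autoImplicit false

namespace Pool.Agent.Helper96.MP

theorem tile_uni (N : ℕ) (l c d : ℤ) (hl : IsCoprime l (N : ℤ)) :
    Uni N (l * c) (l * d) ↔ Uni N c d := by
  unfold Uni
  rw [Int.gcd_mul_left, Int.gcd_natCast_natCast, Int.gcd_natCast_natCast]
  have h1 : Nat.Coprime l.natAbs N := by
    have := Int.isCoprime_iff_gcd_eq_one.mp hl
    rwa [Int.gcd, Int.natAbs_natCast] at this
  change Nat.Coprime _ _ ↔ Nat.Coprime _ _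
  rw [Nat.coprime_mul_iff_left]
  exact ⟨fun h => h.2, fun h => ⟨h1, h⟩⟩

theorem tile_ev {N : ℕ} {V : Type} [Zero V] (v : PN N → V) (l c d : ℤ)
    (hl : IsCoprime l (N : ℤ)) : ev v (l * c) (l * d) = ev v c d := by
  unfold ev
  by_cases h : Uni N c d
  · have h' := (tile_uni N l c d hl).mpr h
    rw [dif_pos h', dif_pos h]
    congr 1
    apply Quotient.sound
    change eqv N (l * c) (l * d) c d
    exact eqv_symm ⟨l, hl, by simp, by simp⟩
  · have h' : ¬ Uni N (l * c) (l * d) := fun h2 => h ((tile_uni N l c d hl).mp h2)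
    rw [dif_neg h', dif_neg h]

theorem tile_tn (n : ℕ) (t : ℕ × ℕ × ℕ) (hn : 1 ≤ n) : t ∈ Tn n ↔
    t.1 * t.2.2 = n ∧ t.2.1 < t.2.2 := by
  unfold Tn
  simp only [Finset.mem_filter, Finset.mem_product, Finset.mem_range]
  constructor
  · rintro ⟨_, h⟩; exact h
  · rintro ⟨g1, g2⟩
    have hs1 : 0 < t.1 := by
      rcases Nat.eq_zero_or_pos t.1 with h | h
      · rw [h, zero_mul] at g1; omega
      · exact h
    have hs2 : t.1 ≤ n := by nlinarith
    have hs3 : t.2.2 ≤ n := by nlinarith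
    exact ⟨⟨by omega, by omega, by omega⟩, g1, g2⟩

/-- exactly one `t` with `n ∣ δ_t Y` -/
theorem tile_one (hH : ST_HERM) (n : ℕ) (hn : 1 ≤ n) (y11 y12 y21 y22 : ℤ)
    (hdet : y11 * y22 - y12 * y21 = (n : ℤ)) :
    ∃ t ∈ Tn n, (∃ p' q' r' s' : ℤ, p' * s' - q' * r' = 1 ∧
      (t.1 : ℤ) * y11 + t.2.1 * y21 = n * s' ∧ (t.1 : ℤ) * y12 + t.2.1 * y22 = n * (-q') ∧
      (t.2.2 : ℤ) * y21 = n * (-r') ∧ (t.2.2 : ℤ) * y22 = n * p' ∧
      y21 = t.1 * (-r') ∧ y22 = t.1 * p') ∧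
      ∀ s ∈ Tn n, ((n : ℤ) ∣ s.1 * y11 + s.2.1 * y21 ∧ (n : ℤ) ∣ s.1 * y12 + s.2.1 * y22 ∧
        (n : ℤ) ∣ s.2.2 * y21 ∧ (n : ℤ) ∣ s.2.2 * y22) → s = t := by
  obtain ⟨t, ⟨ht, p', q', r', s', h1, h2, h3, h4, h5⟩, hu⟩ :=
    hH n hn y22 (-y12) (-y21) y11 (by linarith)
  have htn := (tile_tn n t hn).mp ht
  have hnz : (t.1 : ℤ) * t.2.2 = n := by exact_mod_cast htn.1
  refine ⟨t, ht, ⟨p', q', r', s', h1, ?_, ?_, ?_, ?_, ?_, ?_⟩, ?_⟩
  · rw [h5, show y21 = -(r' * t.1) by linarith, ← hnz]; ring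
  · rw [h2, show y12 = -(p' * t.2.1 + q' * t.2.2) by linarith, ← hnz]; ring
  · rw [show y21 = -(r' * t.1) by linarith, ← hnz]; ring
  · rw [h2, ← hnz]; ring
  · linarith
  · rw [h2]; ring
  · rintro s hs ⟨⟨a1, g3⟩, ⟨a2, g4⟩, ⟨a3, g5⟩, ⟨a4, g6⟩⟩
    apply hu
    have gsn := (tile_tn n s hn).mp hs
    have gz : (s.1 : ℤ) * s.2.2 = n := by exact_mod_cast gsn.1
    have hd : (s.2.2 : ℤ) ≠ 0 := by
      have : s.2.2 ≠ 0 := by have := gsn.2; omega
      exact_mod_cast this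
    have ha : (s.1 : ℤ) ≠ 0 := by
      intro h
      have h0 : s.1 = 0 := by exact_mod_cast h
      have := gsn.1
      rw [h0, zero_mul] at this
      omega
    have e1 : y21 = s.1 * a3 := by
      apply mul_left_cancel₀ hd
      rw [g5, ← gz]; ring
    have e2 : y22 = s.1 * a4 := by
      apply mul_left_cancel₀ hd
      rw [g6, ← gz]; ring
    have e3 : y12 = s.2.2 * a2 - s.2.1 * a4 := by
      apply mul_left_cancel₀ ha
      have : (s.1 : ℤ) * y12 + s.2.1 * y22 = (s.1 : ℤ) * s.2.2 * a2 := by rw [g4, gz]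
      rw [e2] at this
      linear_combination this
    have e4 : y11 = s.2.2 * a1 - s.2.1 * a3 := by
      apply mul_left_cancel₀ ha
      have : (s.1 : ℤ) * y11 + s.2.1 * y21 = (s.1 : ℤ) * s.2.2 * a1 := by rw [g3, gz]
      rw [e1] at this
      linear_combination this
    refine ⟨hs, a4, -a2, -a3, a1, ?_, ?_, ?_, ?_, ?_⟩
    · have h9 : (n : ℤ) * (a4 * a1 - a2 * a3) = n := by
        have : y11 * y22 - y12 * y21 = (n : ℤ) * (a4 * a1 - a2 * a3) := by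
          rw [e1, e2, e3, e4, ← gz]; ring
        rw [← this, hdet]
      have hnn : (n : ℤ) ≠ 0 := by
        have : n ≠ 0 := by omega
        exact_mod_cast this
      have h10 := mul_left_cancel₀ hnn (h9.trans (mul_one _).symm)
      linarith
    · rw [e2]; ring
    · rw [e3]; ring
    · rw [e1]; ring
    · rw [e4]; ring

theorem st_TILE (hH : ST_HERM) (hC : ST_CHAIN) : ST_TILE := by
  classical
  intro V _ N n hN hn hco C v hom hv p x q y hg
  have hnz : (n : ℤ) ≠ 0 := by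
    have : n ≠ 0 := by omega
    exact_mod_cast this
  -- right hand side by CHAIN
  have h1 : ∀ t ∈ Tn n, (C (t.1 * p + t.2.1 * q) (t.2.2 * q) -
      C (t.1 * x + t.2.1 * y) (t.2.2 * y)) =
      ∑ m ∈ Sn n, if ((n : ℤ) ∣ (t.1 : ℤ) * (p * m.1 + x * m.2.2.1) +
            t.2.1 * (q * m.1 + y * m.2.2.1) ∧
          (n : ℤ) ∣ (t.1 : ℤ) * (p * m.2.1 + x * m.2.2.2) + t.2.1 * (q * m.2.1 + y * m.2.2.2) ∧
          (n : ℤ) ∣ (t.2.2 : ℤ) * (q * m.1 + y * m.2.2.1) ∧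
          (n : ℤ) ∣ (t.2.2 : ℤ) * (q * m.2.1 + y * m.2.2.2)) then
        C ((t.1 : ℤ) * (p * m.1 + x * m.2.2.1) + t.2.1 * (q * m.1 + y * m.2.2.1))
            (t.2.2 * (q * m.1 + y * m.2.2.1)) -
          C ((t.1 : ℤ) * (p * m.2.1 + x * m.2.2.2) + t.2.1 * (q * m.2.1 + y * m.2.2.2))
            (t.2.2 * (q * m.2.1 + y * m.2.2.2)) else 0 := by
    intro t ht
    have htn := (tile_tn n t hn).mp ht
    have hz : (t.1 : ℤ) * t.2.2 = n := by exact_mod_cast htn.1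
    have key := hC V n hn (fun a b => C ((t.1 * p + t.2.1 * q) * a + (t.1 * x + t.2.1 * y) * b)
      (t.2.2 * q * a + t.2.2 * y * b)) (by
        intro k a b hk
        simp only
        rw [← hom k ((t.1 * p + t.2.1 * q) * a + (t.1 * x + t.2.1 * y) * b) _ hk]
        congr 1 <;> ring) (t.1 * p + t.2.1 * q) (t.1 * x + t.2.1 * y) (t.2.2 * q)
        (t.2.2 * y) (by
          have : ((t.1 : ℤ) * p + t.2.1 * q) * (t.2.2 * y) -
              (t.1 * x + t.2.1 * y) * (t.2.2 * q) = (t.1 * t.2.2) * (p * y - x * q) := by ring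
          rw [this, hz, hg, mul_one])
    simp only [mul_one, mul_zero, add_zero, zero_add] at key
    rw [← key, Finset.sum_filter]
    refine Finset.sum_congr rfl fun m _ => ?_
    have r1 : ((t.1 : ℤ) * p + t.2.1 * q) * m.1 + (t.1 * x + t.2.1 * y) * m.2.2.1 =
        (t.1 : ℤ) * (p * m.1 + x * m.2.2.1) + t.2.1 * (q * m.1 + y * m.2.2.1) := by ring
    have r2 : ((t.1 : ℤ) * p + t.2.1 * q) * m.2.1 + (t.1 * x + t.2.1 * y) * m.2.2.2 =
        (t.1 : ℤ) * (p * m.2.1 + x * m.2.2.2) + t.2.1 * (q * m.2.1 + y * m.2.2.2) := by ring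
    have r3 : (t.2.2 : ℤ) * q * m.1 + t.2.2 * y * m.2.2.1 =
        (t.2.2 : ℤ) * (q * m.1 + y * m.2.2.1) := by ring
    have r4 : (t.2.2 : ℤ) * q * m.2.1 + t.2.2 * y * m.2.2.2 =
        (t.2.2 : ℤ) * (q * m.2.1 + y * m.2.2.2) := by ring
    rw [r1, r2, r3, r4]
  rw [Finset.sum_congr rfl h1, Finset.sum_comm]
  refine Finset.sum_congr rfl fun m hm => ?_
  have hdm : (m.1 : ℤ) * m.2.2.2 = n + m.2.1 * m.2.2.1 := by
    unfold Sn at hm
    rw [Finset.mem_filter] at hm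
    exact_mod_cast hm.2.2.2
  obtain ⟨t, ht, ⟨p', q', r', s', d0, d1, d2, d3, d4, d5, d6⟩, hu⟩ :=
    tile_one hH n hn (p * m.1 + x * m.2.2.1) (p * m.2.1 + x * m.2.2.2)
      (q * m.1 + y * m.2.2.1) (q * m.2.1 + y * m.2.2.2) (by
        have : (p * m.1 + x * m.2.2.1) * (q * m.2.1 + y * m.2.2.2) -
            (p * m.2.1 + x * m.2.2.2) * (q * m.1 + y * m.2.2.1) =
            (p * y - x * q) * ((m.1 : ℤ) * m.2.2.2 - m.2.1 * m.2.2.1) := by ring
        rw [this, hg, hdm]; ring)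
  rw [Finset.sum_eq_single t]
  · rw [if_pos ⟨⟨_, d1⟩, ⟨_, d2⟩, ⟨_, d3⟩, ⟨_, d4⟩⟩, d1, d2, d3, d4, hom _ _ _ hnz,
      hom _ _ _ hnz, d5, d6]
    have htn := (tile_tn n t hn).mp ht
    have hcop : IsCoprime (t.1 : ℤ) (N : ℤ) := by
      rw [Nat.isCoprime_iff_coprime]
      exact Nat.Coprime.coprime_dvd_left ⟨t.2.2, htn.1.symm⟩ hco
    rw [tile_ev v _ _ _ hcop]
    exact hv s' (-q') (-r') p' (by linarith)
  · intro s hs hne
    rw [if_neg]
    intro h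
    exact hne (hu s hs h)
  · intro h
    exact absurd ht h

end Pool.Agent.Helper96.MP
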